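import Pool.Agent.Q127.MonoPos.Main

/-!
# Nordhaus–Gaddum for independent position colourings fails (MP_691331_co, Q1)

The definitions `GeneralPosition`, `MonophonicPosition`, `IsPositionColouring` and `chi` are in
`Pool.Agent.Q127.MonoPos.Defs`.

Let `G` be the incidence graph of the elements of `[s]` and the `2 ^ s - 1` nonempty subsets of
`[s]`. The subsets form a clique of the complement of `G`. If `X` is in monophonic position in `G`,
then, because of the induced paths `C - i - A - j - C'`, the families `{A ∈ X : i ∈ A}`, `i ∈ [s]`,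
form a laminar family, so `X` contains at most `s` subsets. For `s = 5` this gives
`χ(G) + χ(complement) ≥ 7 + 31 = n + 2`.
-/

set_option autoImplicit false

open Q127.MonoPos

namespace Pool.Agent.Results.MP_691331_co.NordhausGaddumFails

/-- For every `s` there is a graph `G` on `n = s + 2 ^ s - 1` vertices with
`χ_mp(Gᶜ) ≥ 2 ^ s - 1` and `χ_mp(G) ≥ (2 ^ s - 1) / s`; hence `χ_mp(G) + χ_mp(Gᶜ) - n` is unbounded
and Q1 has a negative answer. -/
theorem result :
    (∀ s : ℕ, ∃ (V : Type) (_ : Fintype V) (G : SimpleGraph V),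
      Fintype.card V = s + (2 ^ s - 1) ∧ 2 ^ s - 1 ≤ s * chi MonophonicPosition G ∧
        2 ^ s - 1 ≤ chi MonophonicPosition Gᶜ) ∧
    (∀ C : ℕ, ∃ (V : Type) (_ : Fintype V) (G : SimpleGraph V),
      Fintype.card V + C ≤ chi MonophonicPosition G + chi MonophonicPosition Gᶜ) ∧
    ¬ ∀ (V : Type) [Fintype V] (G : SimpleGraph V),
      chi GeneralPosition G + chi GeneralPosition Gᶜ ≤ Fintype.card V + 1 ∧
      chi MonophonicPosition G + chi MonophonicPosition Gᶜ ≤ Fintype.card V + 1 := by
  have h1 : ∀ s : ℕ, ∃ (V : Type) (_ : Fintype V) (G : SimpleGraph V),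
      Fintype.card V = s + (2 ^ s - 1) ∧ 2 ^ s - 1 ≤ s * chi MonophonicPosition G ∧
        2 ^ s - 1 ≤ chi MonophonicPosition Gᶜ :=
    fun s => ⟨Fin s ⊕ Sub s, inferInstance, inc s, card_V s, chi_inc s, chi_compl s⟩
  have h2 : ∀ C : ℕ, ∃ (V : Type) (_ : Fintype V) (G : SimpleGraph V),
      Fintype.card V + C ≤ chi MonophonicPosition G + chi MonophonicPosition Gᶜ := by
    intro C
    obtain ⟨V, hV, G, hc, hG, hGc⟩ := h1 (C + 6)
    refine ⟨V, hV, G, ?_⟩
    have hpow : (C + 6) * (2 * C + 5) + 1 < 2 ^ (C + 6) := by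
      clear hGc hG hc
      induction C with
      | zero => norm_num
      | succ n ih =>
        have : 2 ^ (n + 1 + 6) = 2 * 2 ^ (n + 6) := by ring
        rw [this]
        nlinarith
    have h3 : 2 * C + 6 ≤ chi MonophonicPosition G := by
      by_contra hlt
      have h4 : chi MonophonicPosition G ≤ 2 * C + 5 := by omega
      have h5 := Nat.mul_le_mul_left (C + 6) h4
      omega
    omega
  refine ⟨h1, h2, fun h => ?_⟩
  obtain ⟨V, hV, G, hG⟩ := h2 2
  have := (h V G).2
  omega

end Pool.Agent.Results.MP_691331_co.NordhausGaddumFails
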